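import Mathlib
import Pool.Agent.Q180.UW.StmL
import Pool.Agent.W437.HQ.Endo

/-!
# The multiplicities on the tangent space and the traces of the Hodge operator
-/

set_option linter.unusedSectionVars false

namespace Pool.Agent.Q144.UW

open Matrix Module Polynomial Pool.Agent.H204R3.CM Pool.Agent.W437.HC Pool.Agent.W437.HD
  Pool.Agent.W437.HP Pool.Agent.W437.HQ Pool.Agent.Q180.UW

/-- the trace of an involution -/
theorem invol_trace {n : ℕ} (A : Matrix (Fin n) (Fin n) ℂ) (hA : A * A = 1) :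
    trace A = 2 * (finrank ℂ (LinearMap.ker (A.mulVecLin - LinearMap.id)) : ℂ) - n := by
  set p := LinearMap.ker (A.mulVecLin - (LinearMap.id : (Fin n → ℂ) →ₗ[ℂ] (Fin n → ℂ))) with hp
  have hproj : LinearMap.IsProj p (Matrix.toLin' ((2 : ℂ)⁻¹ • (1 + A))) := by
    refine ⟨fun x => ?_, fun x hx => ?_⟩
    · rw [hp, LinearMap.mem_ker, LinearMap.sub_apply, LinearMap.id_apply, toLin'_apply,
        mulVecLin_apply, mulVec_mulVec, Matrix.mul_smul, mul_add, mul_one, hA, add_comm A 1, sub_self]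
    · rw [hp, LinearMap.mem_ker, LinearMap.sub_apply, LinearMap.id_apply, mulVecLin_apply,
        sub_eq_zero] at hx
      rw [toLin'_apply, smul_mulVec, add_mulVec, one_mulVec, hx, ← two_smul ℂ x, smul_smul,
        inv_mul_cancel₀ two_ne_zero, one_smul]
  have h1 := hproj.trace
  rw [Matrix.trace_toLin'_eq] at h1
  rw [trace_smul, trace_add, trace_one, Fintype.card_fin, smul_eq_mul] at h1
  linear_combination 2 * h1

theorem invol_le {n : ℕ} (A : Matrix (Fin n) (Fin n) ℂ) :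
    finrank ℂ (LinearMap.ker (A.mulVecLin - LinearMap.id)) ≤ n := by
  have h := Submodule.finrank_le (LinearMap.ker (A.mulVecLin -
    (LinearMap.id : (Fin n → ℂ) →ₗ[ℂ] (Fin n → ℂ))))
  rwa [finrank_fin_fun] at h

variable {g : ℕ} {Z : Matrix (Fin g) (Fin g) ℂ}

/-- vectors killed by the period matrix -/
theorem DZ_of_PZ (hY : IsUnit (imM Z).det) {x : Fin g ⊕ Fin g → ℂ} (h : PZ Z *ᵥ x = 0) :
    DZ Z *ᵥ x = -x := by
  have h1 : x = LM Z *ᵥ (KK g *ᵥ x) := by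
    conv_lhs => rw [← one_mulVec x, one_eq (Z := Z), add_mulVec, ← mulVec_mulVec, h, mulVec_zero,
      zero_add, ← mulVec_mulVec]
  rw [h1, mulVec_mulVec, DZ_LM hY, neg_mulVec]

theorem zero_of_neg {x : Fin g ⊕ Fin g → ℂ} (h : x = -x) : x = 0 := by
  have h3 : (2 : ℂ) • x = 0 := by
    rw [two_smul]
    nth_rewrite 1 [h]
    rw [neg_add_cancel]
  exact (smul_eq_zero.1 h3).resolve_left two_ne_zero

section one

variable {P : ℚ[X]} {φ : Matrix (Fin g ⊕ Fin g) (Fin g ⊕ Fin g) ℚ} {n : ℕ}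
  {Q : ℂ → Matrix (Fin n) (Fin g ⊕ Fin g) ℂ} {V : ℂ → Matrix (Fin g ⊕ Fin g) (Fin n) ℂ}

theorem eig_eq (hQ : ∀ μ, aeval μ P = 0 → Q μ * cK ℂ φ = μ • Q μ)
    (htot : ∑ μ ∈ (P.aroots ℂ).toFinset, V μ * Q μ = 1) (hP : P ≠ 0) {μ : ℂ}
    (hμ : aeval μ P = 0) {z : Fin g ⊕ Fin g → ℂ} (hz : cK ℂ φ *ᵥ z = μ • z) :
    V μ *ᵥ (Q μ *ᵥ z) = z := by
  conv_rhs => rw [← one_mulVec z, ← htot, sum_mulVec]
  rw [Finset.sum_eq_single μ, mulVec_mulVec]
  · intro ν hν hne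
    have hν' : aeval ν P = 0 := by
      rw [Multiset.mem_toFinset, mem_aroots] at hν
      exact hν.2
    have h1 : (Q ν * cK ℂ φ) *ᵥ z = (ν • Q ν) *ᵥ z := by rw [hQ ν hν']
    rw [← mulVec_mulVec, hz, mulVec_smul, smul_mulVec] at h1
    have h2 : (μ - ν) • (Q ν *ᵥ z) = 0 := by rw [sub_smul, h1, sub_self]
    have h3 := (smul_eq_zero.1 h2).resolve_left (sub_ne_zero.2 (Ne.symm hne))
    rw [← mulVec_mulVec, h3, mulVec_zero]
  · intro h
    exfalso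
    apply h
    rw [Multiset.mem_toFinset, mem_aroots]
    exact ⟨hP, hμ⟩

theorem mult_eq (hY : IsUnit (imM Z).det) (C : (Fin g → ℂ) →ₗ[ℂ] (Fin g → ℂ))
    (hC : ∀ w, C (perOne Z w) = perOne Z (φ *ᵥ w))
    (hQ : ∀ μ, aeval μ P = 0 → Q μ * cK ℂ φ = μ • Q μ)
    (htot : ∑ μ ∈ (P.aroots ℂ).toFinset, V μ * Q μ = 1) (hP : P ≠ 0) {μ : ℂ}
    (hμ : aeval μ P = 0) (hQV : Q μ * V μ = 1) (hV : cK ℂ φ * V μ = μ • V μ) :
    mult C μ ≤ n ∧ trace (DZ Z * (V μ * Q μ)) = 2 * (mult C μ : ℂ) - n := by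
  have hE : IsEndo Z φ (LinearMap.toMatrix' C) := by
    intro w
    rw [← hC, LinearMap.toMatrix'_mulVec]
  have hPZ : ∀ x, PZ Z *ᵥ (cK ℂ φ *ᵥ x) = C (PZ Z *ᵥ x) := by
    intro x
    have h1 : PZ Z * cK ℂ φ = LinearMap.toMatrix' C * PZ Z := endo_PZ hE
    rw [mulVec_mulVec, h1, ← mulVec_mulVec, LinearMap.toMatrix'_mulVec]
  have hcom : cK ℂ φ * DZ Z = DZ Z * cK ℂ φ := endo_comm hY hE
  have hD2 : DZ Z * DZ Z = 1 := DZ_sq hY
  set A : Matrix (Fin n) (Fin n) ℂ := Q μ * DZ Z * V μ with hA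
  have hDV : ∀ x, DZ Z *ᵥ (V μ *ᵥ x) = V μ *ᵥ (A *ᵥ x) := by
    intro x
    have h1 : cK ℂ φ *ᵥ (DZ Z *ᵥ (V μ *ᵥ x)) = μ • (DZ Z *ᵥ (V μ *ᵥ x)) := by
      rw [mulVec_mulVec, hcom, ← mulVec_mulVec, mulVec_mulVec x (cK ℂ φ) (V μ), hV, smul_mulVec,
        mulVec_smul]
    have h2 := eig_eq hQ htot hP hμ h1
    rw [← h2, hA, ← mulVec_mulVec, ← mulVec_mulVec]
  have hQVx : ∀ x, Q μ *ᵥ (V μ *ᵥ x) = x := by
    intro x
    rw [mulVec_mulVec, hQV, one_mulVec]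
  have hAA : A * A = 1 := by
    apply Matrix.toLin'.injective
    refine LinearMap.ext fun x => ?_
    have h1 : V μ *ᵥ (A *ᵥ (A *ᵥ x)) = V μ *ᵥ x := by
      rw [← hDV, ← hDV, mulVec_mulVec _ (DZ Z) (DZ Z), hD2, one_mulVec]
    rw [toLin'_apply, toLin'_apply, one_mulVec, ← mulVec_mulVec, ← hQVx (A *ᵥ (A *ᵥ x)), h1, hQVx]
  have hmult : mult C μ = finrank ℂ (LinearMap.ker (A.mulVecLin - LinearMap.id)) := by
    let f0 : LinearMap.ker (A.mulVecLin - (LinearMap.id : (Fin n → ℂ) →ₗ[ℂ] (Fin n → ℂ))) →ₗ[ℂ]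
        (Fin g → ℂ) := ((PZ Z).mulVecLin ∘ₗ (V μ).mulVecLin) ∘ₗ Submodule.subtype _
    have hf0 : ∀ x, f0 x = PZ Z *ᵥ (V μ *ᵥ (x : Fin n → ℂ)) := fun x => rfl
    have hmem : ∀ x, f0 x ∈ LinearMap.ker (C - μ • (LinearMap.id : (Fin g → ℂ) →ₗ[ℂ] (Fin g → ℂ))) := by
      intro x
      rw [LinearMap.mem_ker, LinearMap.sub_apply, LinearMap.smul_apply, LinearMap.id_apply, hf0,
        ← hPZ, mulVec_mulVec _ (cK ℂ φ) (V μ), hV, smul_mulVec, mulVec_smul, sub_self]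
    let f := LinearMap.codRestrict _ f0 hmem
    have hfi : Function.Injective f := by
      rw [injective_iff_map_eq_zero]
      intro x hx
      have h1 : f0 x = 0 := congrArg Subtype.val hx
      rw [hf0] at h1
      have h2 := DZ_of_PZ hY h1
      have hx2 : A *ᵥ (x : Fin n → ℂ) = x := by
        have := x.2
        rwa [LinearMap.mem_ker, LinearMap.sub_apply, LinearMap.id_apply, mulVecLin_apply,
          sub_eq_zero] at this
      rw [hDV, hx2] at h2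
      have h3 := zero_of_neg h2
      apply Subtype.ext
      rw [← hQVx (x : Fin n → ℂ), h3, mulVec_zero]
      rfl
    have hfs : Function.Surjective f := by
      intro t
      have ht : C (t : Fin g → ℂ) = μ • (t : Fin g → ℂ) := by
        have := t.2
        rwa [LinearMap.mem_ker, LinearMap.sub_apply, LinearMap.smul_apply, LinearMap.id_apply,
          sub_eq_zero] at this
      obtain ⟨y, hy⟩ : ∃ y : Fin g ⊕ Fin g → ℂ, y = r10 g *ᵥ (t : Fin g → ℂ) := ⟨_, rfl⟩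
      have hy1 : PZ Z *ᵥ y = t := by
        rw [hy, mulVec_mulVec, PZ_r10, one_mulVec]
      obtain ⟨z, hz⟩ : ∃ z : Fin g ⊕ Fin g → ℂ, z = (2 : ℂ)⁻¹ • (y + DZ Z *ᵥ y) := ⟨_, rfl⟩
      have hDz : DZ Z *ᵥ z = z := by
        rw [hz, mulVec_smul, mulVec_add, mulVec_mulVec y (DZ Z) (DZ Z), hD2, one_mulVec, add_comm]
      have hPz : PZ Z *ᵥ z = t := by
        rw [hz, mulVec_smul, mulVec_add, mulVec_mulVec y (PZ Z) (DZ Z), PZ_DZ hY, hy1,
          ← two_smul ℂ, smul_smul,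
          inv_mul_cancel₀ two_ne_zero, one_smul]
      have hu : cK ℂ φ *ᵥ z - μ • z = 0 := by
        apply zero_of_neg
        have h1 : PZ Z *ᵥ (cK ℂ φ *ᵥ z - μ • z) = 0 := by
          rw [mulVec_sub, hPZ, hPz, ht, mulVec_smul, hPz, sub_self]
        have h2 := DZ_of_PZ hY h1
        rw [← h2, mulVec_sub, mulVec_smul, hDz, mulVec_mulVec z (DZ Z) (cK ℂ φ), ← hcom,
          ← mulVec_mulVec, hDz]
      have hVz : V μ *ᵥ (Q μ *ᵥ z) = z := eig_eq hQ htot hP hμ (sub_eq_zero.1 hu)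
      refine ⟨⟨Q μ *ᵥ z, ?_⟩, ?_⟩
      · rw [LinearMap.mem_ker, LinearMap.sub_apply, LinearMap.id_apply, mulVecLin_apply,
          sub_eq_zero, hA, ← mulVec_mulVec, ← mulVec_mulVec, hVz, hDz]
      · apply Subtype.ext
        change PZ Z *ᵥ (V μ *ᵥ (Q μ *ᵥ z)) = (t : Fin g → ℂ)
        rw [hVz, hPz]
    exact (LinearEquiv.ofBijective f ⟨hfi, hfs⟩).finrank_eq.symm
  refine ⟨?_, ?_⟩
  · rw [hmult]
    exact invol_le A
  · rw [hmult, ← invol_trace A hAA, hA, ← Matrix.mul_assoc, trace_mul_comm, ← Matrix.mul_assoc]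

end one

/-- UMUL -/
theorem mul : S_mul := by
  intro g Z hZ hpos P φ n C Q V hPi hφ hC hQV htot μ hμ
  have hY : IsUnit (imM Z).det := hpos.isUnit.map Matrix.detMonoidHom
  have key : ∀ μ, aeval μ P = 0 →
      mult C μ ≤ n ∧ trace (DZ Z * (V μ * Q μ)) = 2 * (mult C μ : ℂ) - n := fun μ hμ =>
    mult_eq hY C hC (fun μ hμ => (hQV μ hμ).2.2.1) htot hPi.ne_zero hμ (hQV μ hμ).1
      (hQV μ hμ).2.2.2.1
  obtain ⟨h1, h2⟩ := key μ hμ
  have hμ' : aeval (starRingEnd ℂ μ) P = 0 := by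
    have h3 := congrArg (starRingEnd ℂ) hμ
    rw [map_zero] at h3
    rw [← h3]
    have h4 := Polynomial.aeval_algHom_apply (Complex.conjAe.toAlgHom.restrictScalars ℚ) μ P
    exact h4
  obtain ⟨h3, h4⟩ := key _ hμ'
  obtain ⟨hσQ, hσV⟩ := (hQV μ hμ).2.2.2.2 (starRingAut : ℂ ≃+* ℂ)
  have h5 : trace (DZ Z * (V (starRingEnd ℂ μ) * Q (starRingEnd ℂ μ))) =
      -(starRingEnd ℂ) (trace (DZ Z * (V μ * Q μ))) := by
    have e1 : V (starRingEnd ℂ μ) = (V μ).map (starRingEnd ℂ) := hσV.symm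
    have e2 : Q (starRingEnd ℂ μ) = (Q μ).map (starRingEnd ℂ) := hσQ.symm
    have e3 : DZ Z = -(DZ Z).map (starRingEnd ℂ) := by rw [DZ_conj, neg_neg]
    rw [e1, e2]
    conv_lhs => rw [e3]
    have e4 : ∀ M : Matrix (Fin g ⊕ Fin g) (Fin g ⊕ Fin g) ℂ,
        (starRingEnd ℂ) (trace M) = trace (M.map (starRingEnd ℂ)) := by
      intro M
      unfold trace
      rw [map_sum]
      rfl
    rw [Matrix.neg_mul, trace_neg, e4, Matrix.map_mul, Matrix.map_mul]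
  rw [h2, h4] at h5
  have h6 : (mult C (starRingEnd ℂ μ) : ℂ) = n - mult C μ := by
    simp only [map_sub, map_mul, map_natCast, map_ofNat] at h5
    linear_combination (1 / 2) * h5
  refine ⟨h1, ?_, h2⟩
  have h7 : ((mult C (starRingEnd ℂ μ) + mult C μ : ℕ) : ℂ) = ((n : ℕ) : ℂ) := by
    push_cast
    rw [h6]
    ring
  have h8 : mult C (starRingEnd ℂ μ) + mult C μ = n := by exact_mod_cast h7
  omega

end Pool.Agent.Q144.UW
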