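import Mathlib
import Pool.Agent.Q180.UW.StmL

/-!
# Products of period matrices with pieces decompose into pieces
-/

set_option linter.unusedSectionVars false

namespace Pool.Agent.Q144.UW

open Matrix Pool.Agent.H204R3.CM Pool.Agent.W437.HC Pool.Agent.W437.HD
  Pool.Agent.W437.HP Pool.Agent.W437.HR Pool.Agent.Q180.UW

section glue

variable {B : Type} [Fintype B] [DecidableEq B] {D : Matrix B B ℂ} {ι : Type}
    [Fintype ι] [DecidableEq ι] {R : ι → Type} [∀ i, Fintype (R i)] [∀ i, DecidableEq (R i)]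
    {D' : ∀ i, Matrix (R i) (R i) ℂ} {Om' : ∀ i, Matrix (R i) (R i) ℚ}
    (b : Blocks B D R D' Om')

/-- The inclusion of a factor. -/
noncomputable def jnc (i : ι) : (R i → ℂ) →ₗ[ℂ] (B → ℂ) := Matrix.mulVecLin (cK ℂ (b.P i))ᵀ

/-- The projection to a factor. -/
noncomputable def prc (i : ι) : (B → ℂ) →ₗ[ℂ] (R i → ℂ) := Matrix.mulVecLin (cK ℂ (b.P i))

theorem prc_jnc (i : ι) (u : R i → ℂ) : prc b i (jnc b i u) = u := by
  change cK ℂ (b.P i) *ᵥ ((cK ℂ (b.P i))ᵀ *ᵥ u) = u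
  rw [mulVec_mulVec, b.sameK, one_mulVec]

theorem jnc_inj (i : ι) : Function.Injective (jnc b i) :=
  Function.LeftInverse.injective (prc_jnc b i)

theorem mul_jnc {X : Matrix B B ℂ} (hX : X ∈ lieM D ℂ) (i : ι) (u : R i → ℂ) :
    X *ᵥ (jnc b i u) = jnc b i (b.bl ℂ i X *ᵥ u) := by
  change X *ᵥ ((cK ℂ (b.P i))ᵀ *ᵥ u) = (cK ℂ (b.P i))ᵀ *ᵥ (b.bl ℂ i X *ᵥ u)
  rw [mulVec_mulVec, mulVec_mulVec, b.mul_inc hX]

theorem prc_mul {X : Matrix B B ℂ} (hX : X ∈ lieM D ℂ) (i : ι) (y : B → ℂ) :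
    prc b i (X *ᵥ y) = b.bl ℂ i X *ᵥ (prc b i y) := by
  change cK ℂ (b.P i) *ᵥ (X *ᵥ y) = b.bl ℂ i X *ᵥ (cK ℂ (b.P i) *ᵥ y)
  rw [mulVec_mulVec, mulVec_mulVec, b.prj_mul hX]

theorem sum_jnc (y : B → ℂ) : y = ∑ i, jnc b i (prc b i y) := by
  conv_lhs => rw [← one_mulVec y, ← b.totK, sum_mulVec]
  exact Finset.sum_congr rfl fun i _ => (mulVec_mulVec _ _ _).symm

/-- The piece in the product. -/
noncomputable def eqp (i : ι) (N : Submodule ℂ (R i → ℂ)) :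
    N ≃ₗ[ℂ] (N.map (jnc b i)) := Submodule.equivMapOfInjective (jnc b i) (jnc_inj b i) N

theorem eqp_coe (i : ι) (N : Submodule ℂ (R i → ℂ)) (x : N) :
    (eqp b i N x : B → ℂ) = jnc b i (x : R i → ℂ) := rfl

theorem hst_map (i : ι) (N : Submodule ℂ (R i → ℂ))
    (hst : ∀ X ∈ lieM (D' i) ℂ, ∀ x ∈ N, X *ᵥ x ∈ N) :
    ∀ X ∈ lieM D ℂ, ∀ x ∈ N.map (jnc b i), X *ᵥ x ∈ N.map (jnc b i) := by
  rintro X hX _ ⟨u, hu, rfl⟩
  rw [mul_jnc b hX]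
  exact ⟨_, hst _ (b.bl_mem hX i) u hu, rfl⟩

theorem rsN_map (i : ι) (N : Submodule ℂ (R i → ℂ))
    (hst : ∀ X ∈ lieM (D' i) ℂ, ∀ x ∈ N, X *ᵥ x ∈ N) (X : lieM D ℂ) (x : N) :
    rsN (N.map (jnc b i)) (hst_map b i N hst) X (eqp b i N x) =
      eqp b i N (rsN N hst (b.blL i X) x) := by
  apply Subtype.ext
  rw [rsN_coe, eqp_coe, eqp_coe, rsN_coe, mul_jnc b X.2]
  rfl

theorem rsN_map' (i : ι) (N : Submodule ℂ (R i → ℂ))
    (hst : ∀ X ∈ lieM (D' i) ℂ, ∀ x ∈ N, X *ᵥ x ∈ N) (X : lieM D ℂ) (x : N.map (jnc b i)) :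
    (eqp b i N).symm (rsN (N.map (jnc b i)) (hst_map b i N hst) X x) =
      rsN N hst (b.blL i X) ((eqp b i N).symm x) := by
  rw [LinearEquiv.symm_apply_eq, ← rsN_map b i N hst, LinearEquiv.apply_symm_apply]

/-- The form on the piece in the product. -/
noncomputable def wmp (i : ι) (N : Submodule ℂ (R i → ℂ)) (w : N →ₗ[ℂ] N →ₗ[ℂ] ℂ) :
    (N.map (jnc b i)) →ₗ[ℂ] (N.map (jnc b i)) →ₗ[ℂ] ℂ :=
  w.compl₁₂ (eqp b i N).symm.toLinearMap (eqp b i N).symm.toLinearMap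

theorem wmp_apply (i : ι) (N : Submodule ℂ (R i → ℂ)) (w : N →ₗ[ℂ] N →ₗ[ℂ] ℂ)
    (x y : N.map (jnc b i)) :
    wmp b i N w x y = w ((eqp b i N).symm x) ((eqp b i N).symm y) := rfl

theorem hasPcs_glue
    (hnd : ∀ i, ∀ X ∈ (lieM D ℚ).map (b.bl ℚ i),
      (∀ Y ∈ (lieM D ℚ).map (b.bl ℚ i), trace (X * Y) = 0) → X = 0)
    (hD2 : ∀ i, D' i * D' i = 1) (hp : ∀ i, HasPcs (D' i)) : HasPcs D := by
  classical
  choose A hA1 hA2 N w π hst hsum hnt halt hnon hsp hful hπ using hp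
  refine ⟨Σ i, A i, inferInstance, inferInstance, fun a => (N a.1 a.2).map (jnc b a.1),
    fun a => wmp b a.1 (N a.1 a.2) (w a.1 a.2),
    fun a => (eqp b a.1 (N a.1 a.2)).toLinearMap ∘ₗ (π a.1 a.2) ∘ₗ (prc b a.1),
    fun a => hst_map b a.1 (N a.1 a.2) (hst a.1 a.2), ?_, ?_, ?_, ?_, ?_, ?_, ?_⟩
  · intro y
    conv_lhs => rw [sum_jnc b y]
    rw [Fintype.sum_sigma]
    refine Finset.sum_congr rfl fun i _ => ?_
    conv_lhs => rw [hsum i (prc b i y)]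
    rw [map_sum]
    rfl
  · intro a
    have := hnt a.1 a.2
    exact (eqp b a.1 (N a.1 a.2)).symm.toEquiv.nontrivial
  · intro a x
    exact halt a.1 a.2 _
  · intro a x hx
    have h1 : (eqp b a.1 (N a.1 a.2)).symm x = 0 := by
      refine hnon a.1 a.2 _ fun y => ?_
      have h2 := hx (eqp b a.1 (N a.1 a.2) y)
      change wmp b a.1 (N a.1 a.2) (w a.1 a.2) x (eqp b a.1 (N a.1 a.2) y) = 0 at h2
      rwa [wmp_apply, LinearEquiv.symm_apply_apply] at h2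
    exact (LinearEquiv.map_eq_zero_iff _).1 h1
  · intro a X x y
    change wmp b a.1 (N a.1 a.2) (w a.1 a.2)
        (rsN ((N a.1 a.2).map (jnc b a.1)) (hst_map b a.1 (N a.1 a.2) (hst a.1 a.2)) X x) y =
      - wmp b a.1 (N a.1 a.2) (w a.1 a.2) x
        (rsN ((N a.1 a.2).map (jnc b a.1)) (hst_map b a.1 (N a.1 a.2) (hst a.1 a.2)) X y)
    rw [wmp_apply, wmp_apply, rsN_map' b a.1 (N a.1 a.2) (hst a.1 a.2),
      rsN_map' b a.1 (N a.1 a.2) (hst a.1 a.2)]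
    exact hsp a.1 a.2 (b.blL a.1 X) _ _
  · intro a x y
    obtain ⟨X, hX⟩ := Blocks.full b a.1 (hnd a.1) (hD2 a.1) (N a.1 a.2) (w a.1 a.2)
        (hst a.1 a.2) (hnt a.1 a.2) (halt a.1 a.2) (hnon a.1 a.2) (hsp a.1 a.2)
        (hful a.1 a.2) ((eqp b a.1 (N a.1 a.2)).symm x) ((eqp b a.1 (N a.1 a.2)).symm y)
    refine ⟨X, LinearMap.ext fun z => ?_⟩
    apply (eqp b a.1 (N a.1 a.2)).symm.injective
    change (eqp b a.1 (N a.1 a.2)).symm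
        (rsN ((N a.1 a.2).map (jnc b a.1)) (hst_map b a.1 (N a.1 a.2) (hst a.1 a.2)) X z) =
      (eqp b a.1 (N a.1 a.2)).symm (EE (wmp b a.1 (N a.1 a.2) (w a.1 a.2)) x y z)
    rw [rsN_map' b a.1 (N a.1 a.2) (hst a.1 a.2), EE_apply, map_add, map_smul, map_smul, wmp_apply, wmp_apply]
    have h1 := LinearMap.congr_fun hX ((eqp b a.1 (N a.1 a.2)).symm z)
    rw [EE_apply] at h1
    exact h1
  · intro a X hX y
    change (eqp b a.1 (N a.1 a.2) (π a.1 a.2 (prc b a.1 (X *ᵥ y))) : B → ℂ) =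
      X *ᵥ (eqp b a.1 (N a.1 a.2) (π a.1 a.2 (prc b a.1 y)) : B → ℂ)
    rw [eqp_coe, eqp_coe, mul_jnc b hX, prc_mul b hX, hπ a.1 a.2 _ (b.bl_mem hX a.1)]

end glue

/-- UPCS -/
theorem pcs : S_pcs := by
  intro ι _ _ g Z hZ hpos hp
  exact hasPcs_glue (blocksOf Z hZ hpos) (blocksOf_nondeg Z hZ hpos)
    (fun i => DZ_sq ((hpos i).isUnit.map Matrix.detMonoidHom)) hp

end Pool.Agent.Q144.UW
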