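import Mathlib
import Pool.Agent.Q180.UW.StmL

/-!
# The space of the first block and the elements of the Lie algebra which vanish on the second block
-/

set_option linter.unusedSectionVars false

namespace Pool.Agent.Q144.UW

open Matrix Module Pool.Agent.H204R3.CM Pool.Agent.H204R3.SP Pool.Agent.W437.HC Pool.Agent.W437.HD
  Pool.Agent.W437.HP Pool.Agent.W437.HR Pool.Agent.Q180.UW Pool.Agent.W548.Odd
open Pool.Agent.Y4.K (Pol Pr mu Eqv Iso)
open Pool.Agent.Y4.H (LZ Ct)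

/-- The elements of the Lie algebra commute with the commutant. -/
theorem comm_lieM {g : ℕ} {Z : Matrix (Fin g) (Fin g) ℂ} (hZ : Zᵀ = Z)
    {c : Matrix (Fin g ⊕ Fin g) (Fin g ⊕ Fin g) ℂ} (hc : Ct Z c) :
    ∀ X ∈ lieM (DZ Z) ℂ, X * c = c * X := by
  refine Cm_induction (D := DZ '' {Z}) (p := fun c => ∀ X ∈ lieM (DZ Z) ℂ, X * c = c * X)
    ?_ ?_ ?_ ?_ c hc
  · intro u hu X hX
    have hD : qm u * DZ Z = DZ Z * qm u := hu _ (LA_self ⟨Z, rfl, rfl⟩)
    have hO : (Om g ℚ).map (fun x : ℚ => (x : ℂ)) = Om g ℂ := Om_map ℂ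
    have hOu : (Om g ℚ * u).map (fun x : ℚ => (x : ℂ)) = Om g ℂ * qm u := by
      rw [← hO]
      exact Matrix.map_mul (f := Rat.castHom ℂ)
    have h1 : IsH (DZ Z) (bilc (Om g ℚ * u)) := by
      refine isH_bilc _ ?_
      rw [hOu]
      have h2 := DZ_sp hZ
      rw [hO] at h2
      have h3 : (DZ Z)ᵀ * (Om g ℂ * qm u) + Om g ℂ * qm u * DZ Z =
          ((DZ Z)ᵀ * Om g ℂ + Om g ℂ * DZ Z) * qm u := by
        rw [add_mul, mul_assoc (Om g ℂ) (qm u), hD]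
        noncomm_ring
      rw [h3, h2, zero_mul]
    have h4 := lieM_bil (DZ Z) h1 hX
    rw [hOu] at h4
    have h5 := lie_sp hZ hX
    have h6 : Om g ℂ * (qm u * X - X * qm u) = 0 := by
      have h7 : Xᵀ * (Om g ℂ * qm u) = -(Om g ℂ * X) * qm u := by
        rw [← mul_assoc, eq_neg_of_add_eq_zero_left h5]
      rw [h7] at h4
      rw [← h4]
      noncomm_ring
    have h8 : Om g ℂ * (Om g ℂ * (qm u * X - X * qm u)) = 0 := by rw [h6, mul_zero]
    rw [← mul_assoc, Om_sq, neg_one_mul, neg_eq_zero, sub_eq_zero] at h8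
    exact h8.symm
  · intro X _
    rw [mul_zero, zero_mul]
  · intro a b ha hb X hX
    rw [mul_add, add_mul, ha X hX, hb X hX]
  · intro a b hb X hX
    rw [mul_smul_comm, smul_mul_assoc, hb X hX]

section one

variable {S : Type*} [AddCommGroup S] [Module ℂ S] {w : S →ₗ[ℂ] S →ₗ[ℂ] ℂ}

theorem comm_zero (hw : ∀ x, w x x = 0) (hn : ∀ x, (∀ y, w x y = 0) → x = 0)
    {C : Module.End ℂ S} (hC : IsSp w C) (h : ∀ x, C * EE w x x = EE w x x * C) : C = 0 := by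
  refine LinearMap.ext fun x => ?_
  rw [LinearMap.zero_apply]
  by_cases hx : x = 0
  · rw [hx, map_zero]
  have h1 := EE_bracket hC x x
  rw [h x, sub_self, EE_comm w x (C x), ← two_smul ℂ] at h1
  have h2 := (smul_eq_zero.1 h1.symm).resolve_left two_ne_zero
  exact EE_eq_zero hw hn hx h2

end one

section two

variable {g : Bool → ℕ} {Z : ∀ b, Matrix (Fin (g b)) (Fin (g b)) ℂ} (T : Two g Z)

/-- The map to the second block. -/
noncomputable def tauT : lieM (DZ (bigD ℂ Z)) ℂ →ₗ[ℂ]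
    Matrix (Fin (g false) ⊕ Fin (g false)) (Fin (g false) ⊕ Fin (g false)) ℂ :=
  ((blocksOf Z T.hZ T.hpos).bl ℂ false) ∘ₗ (lieM (DZ (bigD ℂ Z)) ℂ).subtype

theorem tauT_apply (X : lieM (DZ (bigD ℂ Z)) ℂ) :
    tauT T X = (blocksOf Z T.hZ T.hpos).bl ℂ false X.1 := rfl

theorem tauT_brL (X Y : lieM (DZ (bigD ℂ Z)) ℂ) :
    tauT T (brL _ X Y) = tauT T X * tauT T Y - tauT T Y * tauT T X :=
  (blocksOf Z T.hZ T.hpos).bl_bracket X.2 Y.2 false

theorem bl_mapf (f : ℂ →ₗ[ℚ] ℂ) (X : Matrix (Fin (NB g) ⊕ Fin (NB g)) (Fin (NB g) ⊕ Fin (NB g)) ℂ)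
    (i : Bool) : (blocksOf Z T.hZ T.hpos).bl ℂ i (X.map f) =
      ((blocksOf Z T.hZ T.hpos).bl ℂ i X).map f := by
  ext x y
  rw [Blocks.bl_apply, Blocks.bl_apply, Matrix.map_apply]
  simp only [Matrix.mul_apply, Matrix.transpose_apply, Matrix.map_apply, cK, map_sum,
    Finset.sum_mul]
  refine Finset.sum_congr rfl fun j _ => Finset.sum_congr rfl fun k _ => ?_
  set p := (blocksOf Z T.hZ T.hpos).P i x k
  set q := (blocksOf Z T.hZ T.hpos).P i y j
  have h1 : ((p : ℚ) : ℂ) * X k j * ((q : ℚ) : ℂ) = (p * q) • X k j := by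
    rw [Rat.smul_def, Rat.cast_mul]
    ring
  rw [h1, map_smul, Rat.smul_def, Rat.cast_mul]
  ring

theorem tauT_surj : ∀ W ∈ LZ (Z false), ∃ X, tauT T X = W := by
  have h : LZ (Z false) ≤ LinearMap.range (tauT T) := by
    refine LA_le ⟨?_, ?_⟩
    · rintro _ ⟨_, rfl, rfl⟩ f
      refine ⟨⟨(DZ (bigD ℂ Z)).map f, ?_⟩, ?_⟩
      · refine mem_of_map _ fun lam => ?_
        exact map_mem _ (D_mem _) (lam.comp f)
      · rw [tauT_apply]
        change (blocksOf Z T.hZ T.hpos).bl ℂ false ((DZ (bigD ℂ Z)).map f) = _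
        rw [bl_mapf T, (blocksOf Z T.hZ T.hpos).bl_D]
    · rintro _ ⟨X, rfl⟩ _ ⟨Y, rfl⟩
      exact ⟨brL _ X Y, tauT_brL T X Y⟩
  intro W hW
  exact h hW

/-- The action on a piece. -/
noncomputable def rhoT (N : Submodule ℂ (Fin (g true) ⊕ Fin (g true) → ℂ))
    (hst : ∀ X ∈ lieM (DZ (Z true)) ℂ, ∀ x ∈ N, X *ᵥ x ∈ N) :
    lieM (DZ (bigD ℂ Z)) ℂ →ₗ[ℂ] Module.End ℂ N :=
  (rsN N hst) ∘ₗ (blocksOf Z T.hZ T.hpos).blL true

theorem rhoT_brL (N : Submodule ℂ (Fin (g true) ⊕ Fin (g true) → ℂ))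
    (hst : ∀ X ∈ lieM (DZ (Z true)) ℂ, ∀ x ∈ N, X *ᵥ x ∈ N) (X Y : lieM (DZ (bigD ℂ Z)) ℂ) :
    rhoT T N hst (brL _ X Y) =
      rhoT T N hst X * rhoT T N hst Y - rhoT T N hst Y * rhoT T N hst X := by
  unfold rhoT
  rw [LinearMap.comp_apply, Blocks.blL_brL, rsN_brL]
  rfl

theorem rhoT_D (N : Submodule ℂ (Fin (g true) ⊕ Fin (g true) → ℂ))
    (hst : ∀ X ∈ lieM (DZ (Z true)) ℂ, ∀ x ∈ N, X *ᵥ x ∈ N) :
    rhoT T N hst ⟨_, D_mem _⟩ * rhoT T N hst ⟨_, D_mem _⟩ = 1 := by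
  refine LinearMap.ext fun z => Subtype.ext ?_
  change (blocksOf Z T.hZ T.hpos).bl ℂ true (DZ (bigD ℂ Z)) *ᵥ
    ((blocksOf Z T.hZ T.hpos).bl ℂ true (DZ (bigD ℂ Z)) *ᵥ (z : _ → ℂ)) = (z : _ → ℂ)
  rw [mulVec_mulVec, (blocksOf Z T.hZ T.hpos).bl_D,
    DZ_sq ((T.hpos true).isUnit.map Matrix.detMonoidHom), one_mulVec]

theorem split_full (hK : S_kil) (N : Submodule ℂ (Fin (g true) ⊕ Fin (g true) → ℂ))
    (w : N →ₗ[ℂ] N →ₗ[ℂ] ℂ)
    (hst : ∀ X ∈ lieM (DZ (Z true)) ℂ, ∀ x ∈ N, X *ᵥ x ∈ N) (hnt : Nontrivial N)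
    (halt : ∀ x, w x x = 0) (hnon : ∀ x, (∀ y, w x y = 0) → x = 0)
    (hsp : ∀ X, IsSp w (rsN N hst X)) (hful : ∀ x y, ∃ X, rsN N hst X = EE w x y) (x y : N) :
    ∃ X, tauT T X = 0 ∧ rhoT T N hst X = EE w x y := by
  have hfull : ∀ x y, ∃ X, rhoT T N hst X = EE w x y := fun x y =>
    Blocks.full (blocksOf Z T.hZ T.hpos) true (blocksOf_nondeg Z T.hZ T.hpos true)
      (DZ_sq ((T.hpos true).isUnit.map Matrix.detMonoidHom)) N w hst hnt halt hnon hsp hful x y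
  have M : Pol (Z false) := ⟨T.hZ false, T.hpos false⟩
  obtain ⟨X0, h0, h1⟩ := hK (g false) (Z false) M (T.cop M) (T.sep M) (T.nsc M)
    (lieM (DZ (bigD ℂ Z)) ℂ) (brL _) N w (rhoT T N hst) (tauT T) halt hnon
    (rhoT_brL T N hst) (fun X => hsp _) hfull (tauT_brL T)
    (fun X c hc => comm_lieM (T.hZ false) hc _ ((blocksOf Z T.hZ T.hpos).bl_mem X.2 false))
    (fun X => lie_sp (T.hZ false) ((blocksOf Z T.hZ T.hpos).bl_mem X.2 false))
    (tauT_surj T) ⟨_, D_mem _⟩ (rhoT_D T N hst) ((blocksOf Z T.hZ T.hpos).bl_D false)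
  have h2 := ideal_full (w := w) (ρ := rhoT T N hst) (br := brL _) halt hnon
    (rhoT_brL T N hst) (fun X => hsp _) hfull
    ((LinearMap.ker (tauT T)).map (rhoT T N hst)) ?_ (A := rhoT T N hst X0)
    ⟨X0, h0, rfl⟩ (hsp _) h1 x y
  · obtain ⟨X, hX, hX'⟩ := h2
    exact ⟨X, hX, hX'⟩
  · rintro X _ ⟨Y, hY, rfl⟩
    refine ⟨brL _ X Y, ?_, rhoT_brL T N hst X Y⟩
    have hY' : tauT T Y = 0 := hY
    change tauT T (brL _ X Y) = 0
    rw [tauT_brL, hY', mul_zero, zero_mul, sub_zero]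

end two

/-- USPLIT -/
theorem split (hK : S_kil) : S_split := by
  intro g Z T
  classical
  obtain ⟨A, hA1, hA2, N, w, π, hst, hsum, hnt, halt, hnon, hsp, hful, hπ⟩ := T.pcs
  have hfull : ∀ a (x y : N a), ∃ X, tauT T X = 0 ∧ rhoT T (N a) (hst a) X = EE (w a) x y :=
    fun a x y => split_full T hK (N a) (w a) (hst a) (hnt a) (halt a) (hnon a) (hsp a) (hful a) x y
  refine ⟨⟨A, hA1, hA2, N, w, π, hst, hsum, hnt, halt, hnon, hsp, fun a X hX y => hπ a X hX y,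
    fun a x y => hfull a x y⟩, ?_⟩
  intro W hW
  obtain ⟨X0, hX0⟩ := tauT_surj T W hW
  -- the ideal
  set I : Submodule ℂ (lieM (DZ (bigD ℂ Z)) ℂ) := LinearMap.ker (tauT T) with hI
  have hbr : ∀ (X : lieM (DZ (bigD ℂ Z)) ℂ), ∀ Y ∈ I, brL _ X Y ∈ I := by
    intro X Y hY
    have hY' : tauT T Y = 0 := hY
    change tauT T (brL _ X Y) = 0
    rw [tauT_brL, hY', mul_zero, zero_mul, sub_zero]
  let s : Sys I (fun X Y => ⟨brL _ X.1 Y.1, hbr X.1 Y.1 Y.2⟩) (N := fun a => ↥(N a)) :=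
    { w := w
      ρ := fun a => (rhoT T (N a) (hst a)) ∘ₗ I.subtype
      alt := halt
      nd := hnon
      brk := fun a X Y => rhoT_brL T (N a) (hst a) X.1 Y.1
      sp := fun a X => hsp a _
      full := fun a x y => by
        obtain ⟨X, hX, hX'⟩ := hfull a x y
        exact ⟨⟨X, hX⟩, hX'⟩ }
  have hspan : ∀ a, ∀ C ∈ Submodule.span ℂ {E | ∃ x y, E = EE (w a) x y},
      ∃ X : I, s.ρ a X = C ∧ ∀ b, ¬Lnk s a b → s.ρ b X = 0 := by
    intro a C hC
    induction hC using Submodule.span_induction with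
    | mem C hC =>
      obtain ⟨x, y, rfl⟩ := hC
      obtain ⟨X, h1, h2, _⟩ := lift_class s a x y
      exact ⟨X, h1, h2⟩
    | zero => exact ⟨0, map_zero _, fun b _ => map_zero _⟩
    | add C C' _ _ h h' =>
      obtain ⟨X, h1, h2⟩ := h
      obtain ⟨X', h1', h2'⟩ := h'
      refine ⟨X + X', by rw [map_add, h1, h1'], fun b hb => ?_⟩
      rw [map_add, h2 b hb, h2' b hb, add_zero]
    | smul c C _ h =>
      obtain ⟨X, h1, h2⟩ := h
      refine ⟨c • X, by rw [map_smul, h1], fun b hb => ?_⟩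
      rw [map_smul, h2 b hb, smul_zero]
  have hex : ∀ a, ∃ X : I, s.ρ a X = rhoT T (N a) (hst a) X0 ∧ ∀ b, ¬Lnk s a b → s.ρ b X = 0 :=
    fun a => hspan a _ (mem_span_EE (halt a) (hnon a) (hsp a _))
  choose Y hY1 hY2 using hex
  let Q := Quotient (lset s)
  let r : Q → A := Quotient.out
  have : Fintype Q := Fintype.ofFinite Q
  have hr : ∀ (q : Q) (a : A), Lnk s (r q) a ↔ q = (Quotient.mk (lset s) a) := by
    intro q a
    constructor
    · intro h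
      rw [← Quotient.out_eq q]
      exact Quotient.sound h
    · rintro rfl
      exact @Quotient.exact _ (lset s) (r (Quotient.mk (lset s) a)) a (Quotient.out_eq _)
  let X1 : I := ∑ q : Q, Y (r q)
  have hX1 : ∀ a, s.ρ a X1 = rhoT T (N a) (hst a) X0 := by
    intro a
    have h1 : s.ρ a X1 = s.ρ a (Y (r (Quotient.mk (lset s) a))) := by
      change s.ρ a (∑ q : Q, Y (r q)) = _
      rw [map_sum, Finset.sum_eq_single (Quotient.mk (lset s) a)]
      · intro q _ hq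
        exact hY2 (r q) a fun h => hq ((hr q a).1 h)
      · intro h
        exact absurd (Finset.mem_univ _) h
    rw [h1]
    have hL : Lnk s (r (Quotient.mk (lset s) a)) a := (hr (Quotient.mk (lset s) a) a).2 rfl
    clear h1
    generalize r (Quotient.mk (lset s) a) = c at hL ⊢
    obtain ⟨f, hf1, hf2⟩ := hL
    -- the difference
    rw [← sub_eq_zero]
    have hfr : ∀ u, s.ρ a (Y c) (f u) = f (rhoT T (N c) (hst c) X0 u) := by
      intro u
      rw [← hf1, hY1]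
    refine comm_zero (halt a) (hnon a) ?_ ?_
    · intro x y
      rw [LinearMap.sub_apply, LinearMap.sub_apply, map_sub, LinearMap.sub_apply, map_sub]
      have h2 := s.sp a (Y c) x y
      have h3 := hsp a ((blocksOf Z T.hZ T.hpos).blL true X0) x y
      change w a (s.ρ a (Y c) x) y = -w a x (s.ρ a (Y c) y) at h2
      change w a (rhoT T (N a) (hst a) X0 x) y = -w a x (rhoT T (N a) (hst a) X0 y) at h3
      rw [h2, h3]
      ring
    · intro x
      obtain ⟨X, hX⟩ := s.full a x x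
      change s.ρ a X = EE (w a) x x at hX
      rw [← hX]
      refine LinearMap.ext fun u => ?_
      obtain ⟨u, rfl⟩ := f.surjective u
      have e1 : f (s.ρ c ⟨brL _ X0 X.1, hbr X0 X.1 X.2⟩ u) =
          s.ρ a ⟨brL _ X0 X.1, hbr X0 X.1 X.2⟩ (f u) := hf1 _ u
      have e2 : s.ρ c ⟨brL _ X0 X.1, hbr X0 X.1 X.2⟩ =
          rhoT T (N c) (hst c) X0 * s.ρ c X - s.ρ c X * rhoT T (N c) (hst c) X0 :=
        rhoT_brL T (N c) (hst c) X0 X.1
      have e3 : s.ρ a ⟨brL _ X0 X.1, hbr X0 X.1 X.2⟩ =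
          rhoT T (N a) (hst a) X0 * s.ρ a X - s.ρ a X * rhoT T (N a) (hst a) X0 :=
        rhoT_brL T (N a) (hst a) X0 X.1
      rw [e2, e3] at e1
      have L1 : s.ρ a (Y c) (s.ρ a X (f u)) = f (rhoT T (N c) (hst c) X0 (s.ρ c X u)) := by
        rw [← hf1 X u, hfr]
      have L2 : s.ρ a X (s.ρ a (Y c) (f u)) = f (s.ρ c X (rhoT T (N c) (hst c) X0 u)) := by
        rw [hfr, hf1]
      simp only [LinearMap.sub_apply, Module.End.mul_apply, map_sub] at e1 ⊢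
      rw [L1, L2]
      rw [sub_eq_sub_iff_add_eq_add] at e1 ⊢
      rw [e1, add_comm]
  refine ⟨(X0 - (X1 : lieM (DZ (bigD ℂ Z)) ℂ)).1, (X0 - (X1 : lieM (DZ (bigD ℂ Z)) ℂ)).2, ?_, ?_⟩
  · have h1 : tauT T (X0 - (X1 : lieM (DZ (bigD ℂ Z)) ℂ)) = W := by
      rw [map_sub, hX0]
      have h2 : tauT T (X1 : lieM (DZ (bigD ℂ Z)) ℂ) = 0 := X1.2
      rw [h2, sub_zero]
    exact h1
  · have h3 : ∀ a, rhoT T (N a) (hst a) (X0 - (X1 : lieM (DZ (bigD ℂ Z)) ℂ)) = 0 := by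
      intro a
      rw [map_sub, ← hX1 a]
      exact sub_self _
    have h4 : ∀ y, (blocksOf Z T.hZ T.hpos).bl ℂ true (X0 - (X1 : lieM (DZ (bigD ℂ Z)) ℂ)).1 *ᵥ y
        = 0 := by
      intro y
      rw [hsum y, mulVec_sum]
      refine Finset.sum_eq_zero fun a _ => ?_
      have h5 := congrArg (fun F : Module.End ℂ (N a) =>
        ((F (π a y) : N a) : Fin (g true) ⊕ Fin (g true) → ℂ)) (h3 a)
      exact h5
    ext i j
    have h6 := congrFun (h4 (Pi.single j 1)) i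
    rw [mulVec_single_one] at h6
    exact h6

end Pool.Agent.Q144.UW
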